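import Pool.Agent.Q298.EF.Dich

/-!
# Abundance for fibrations in products of curves of genus one over the image of a powerful linear system

Let `X` be a normal projective variety of dimension `d + e` with terminal singularities, for instance
a minimal variety or a manifold, and `|V|` a linear system on `X` without fixed components, of
dimension `n = d + k`, whose rational map `X ⇢ ℙⁿ` has an image `Y` of dimension `d ≥ 1`; `Y` may be
any nondegenerate variety of dimension `d`, for instance rational. Suppose:

* (the members) `D i` (`i < q`) are finitely many members of `|V|`, in arbitrary position, which span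
  `V`, and `V` is not the direct sum of two nonzero subspaces such that each `D i` belongs to one of
  them; at every prime divisor `P` of `X` which is a component of some `D i`, some `D i'` has the
  multiplicity at least `s`, where `2 s > R (k + 1) (k + 2)` with `R = n + 2`, or `R = n + 1` if
  there are at least `n + 3` different members;
* (the fibres) `X` is birational to the fibre product over `Y'` of `e ≥ 1` double covers
  `y_j² = F_j(x_j)` of `Y' × ℙ¹`, where `Y'` is any variety with a generically finite map to `Y`
  (the function field of `Y'` is the algebraic closure of the function field of `Y` in `K`), and the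
  nonzero polynomials `F_j` over it have degree at most `4`; they may have multiple roots. For
  `e = 1`: `X ⇢ Y` is a fibration in conics or in curves of genus one of index at most two, in
  general without a section and with any singular fibres.

Then `X` is uniruled or `κ(X) = ν(X) = d`: so if `K_X` is nef then `X` satisfies the abundance
conjecture in the form `κ(X) = ν(X)`.

The function-field language of the starting repository is used. `K` is the function field of `X`;
the prime divisors of `X` are places `P` of `K` (`Place`, `Divisorial`), `P.ord` is the order along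
`P`, and `X` is given by the set of its prime divisors. The linear system is given by the finite
dimensional space `V` of rational functions: if `a` is the minimum of the orders at `P` of the
members of `V` then the multiplicity of `P` in the divisor of the system which is given by `f ∈ V` is
`P.ord f - a`. A section of `N K_X` is an `N`-canonical form `ω` (`IsPluri`), a function of `d + e`
rational vector fields, whose value on vector fields that are regular at `P` is regular at `P`, for
all prime divisors `P` of `X`. `NumLe ℂ K (d + e) (fun _ => False) d` says that `ν(X) ≤ d`: for every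
divisor `A`, given as the polar divisor of finitely many rational functions on a smooth model, there
is a constant `C` with `h⁰(m K_X + A) ≤ C m ^ d` for all `m ≥ 1`.

Proof (`Pool.Agent.Q298.EF`). The lower bound for the Kodaira dimension: the products of generalised
Wronskians of `V` and of the discriminant forms of the double covers (`Pool.Agent.TH585.SV`). The
upper bound for the numerical dimension: let `Λ` be the algebraic closure of the function field of
`Y'`; the geometric generic fibre is the product of the curves `y_j² = F_j(x_j)` over `Λ`, where `F_j`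
can be assumed to be squarefree of degree `3` or `4`. On such a curve the vector field `y d/dx` has
neither zeros nor poles: the order of all elements of the coordinate ring at a point is a multiple of
the order of `x - a` or of `y`, which therefore is `1`. So the product of the curves has numerical
dimension `0` (`Pool.Agent.W619.TW.num_le`), and the numerical dimension of the total space is at
most the dimension of the base plus the one of the geometric generic fibre
(`Pool.Agent.Y174.easy_add`), where the relative algebraic closure of the function field of `Y` in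
`K` is finitely generated (`Q298.EF.ess_sub`).
-/

set_option autoImplicit false

open FF Polynomial Pool.Agent.W602.GT Pool.Agent.W619.TW

namespace Pool.Agent.Results.MP_5ff3c6_ag.GenusOneFibrations

/-- The function field of the image of the rational map which is given by the linear system `V`: the
field generated by the quotients of the members. -/
noncomputable def ImageField {K : Type} [Field K] [Algebra ℂ K] (V : Submodule ℂ K) :
    IntermediateField ℂ K :=
  IntermediateField.adjoin ℂ {y : K | ∃ f ∈ V, ∃ g ∈ V, y = f / g}

/-- `V` is the direct sum of two nonzero subspaces such that each `φ i` belongs to one of them. -/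
def Splits {q : ℕ} {K : Type} [Field K] [Algebra ℂ K] (V : Submodule ℂ K) (φ : Fin q → K) : Prop :=
  ∃ V1 V2 : Submodule ℂ K, V1 ≠ ⊥ ∧ V2 ≠ ⊥ ∧ Disjoint V1 V2 ∧ V1 ⊔ V2 = V ∧
    ∀ i, φ i ∈ V1 ∨ φ i ∈ V2

/-- There are `r` members `φ i` of which no two are proportional. -/
def Different (r : ℕ) {q : ℕ} {K : Type} [Field K] [Algebra ℂ K] (φ : Fin q → K) : Prop :=
  ∃ τ : Fin r → Fin q, ∀ i j, i ≠ j → ∀ t : ℂ, φ (τ i) ≠ t • φ (τ j)

/-- The condition on the multiplicities, on a variety `X` of dimension `w`: if the prime divisor `P`
of `X` is a component of one of the divisors `D i` (the order of `φ i` at `P` is not the minimum `a`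
of the orders of the members of `V`), then some `D i` has multiplicity at least `s` at `P`. -/
def Multiplicities (w : ℕ) {q : ℕ} {K : Type} [Field K] [Algebra ℂ K] (V : Submodule ℂ K)
    (φ : Fin q → K) (X : Set (Place ℂ K)) (s : ℕ) : Prop :=
  ∀ P ∈ X, Divisorial w P → ∀ a : ℤ, (∀ f ∈ V, f = 0 ∨ a ≤ P.ord f) →
    (∃ f ∈ V, f ≠ 0 ∧ P.ord f = a) → (∃ i, P.ord (φ i) ≠ a) → ∃ i, a + s ≤ P.ord (φ i)

/-- `K` is the function field of the fibre product of the `e` double covers `y j ^ 2 = F j (x j)` of
`Y' × ℙ¹`, where the function field of `Y'` is the algebraic closure of `L` in `K`: `F j` is a nonzero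
polynomial of degree at most `4` whose coefficients are algebraic over `L`, the `x j` are a
transcendence basis of `K` over `L`, and `K` is generated by the elements which are algebraic over
`L` and the `x j` and `y j`. -/
def FibreProduct {e : ℕ} {K : Type} [Field K] [Algebra ℂ K] (L : IntermediateField ℂ K)
    (F : Fin e → K[X]) (x y : Fin e → K) : Prop :=
  (∀ j, F j ≠ 0 ∧ (F j).natDegree ≤ 4 ∧ (∀ i, IsAlgebraic L ((F j).coeff i)) ∧
    y j ^ 2 = (F j).eval (x j)) ∧ IsTranscendenceBasis L x ∧
    IntermediateField.adjoin ℂ ({a | IsAlgebraic L a} ∪ Set.range x ∪ Set.range y) = ⊤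

/-- `ω` is a section of `N K_X`, where `X` of dimension `w` is given by the set of its prime divisors:
an `N`-canonical form whose values on vector fields which are regular at `P` are regular at `P`, for
all prime divisors `P` of `X`. -/
def IsSection {K : Type} [Field K] [Algebra ℂ K] (w : ℕ) (X : Set (Place ℂ K)) (N : ℕ)
    (ω : (Fin w → Derivation ℂ K K) → K) : Prop :=
  IsPluri N ω ∧ ∀ P ∈ X, Divisorial w P → ∀ D : Fin w → Derivation ℂ K K,
    (∀ i, DerReg P (D i)) → P.Reg (ω D)

/-- `κ (X) ≥ κ`: some positive multiple of `K_X` has sections with `κ` algebraically independent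
ratios (a nonzero section, if `κ = 0`). -/
def KodairaGe {K : Type} [Field K] [Algebra ℂ K] (w : ℕ) (X : Set (Place ℂ K)) (κ : ℕ) : Prop :=
  ∃ N : ℕ, 0 < N ∧ ∃ ω : Fin (κ + 1) → (Fin w → Derivation ℂ K K) → K,
    (∀ j, IsSection w X N (ω j)) ∧
    ∃ D, ω 0 D ≠ 0 ∧ AlgebraicIndependent ℂ (fun i : Fin κ => ω i.succ D / ω 0 D)

/-- Uniruled function fields of transcendence degree `w`: `K` embeds into the field of rational
functions `M(t)` over the function field `M` of a variety of dimension `w - 1`. -/
def IsUniruled (K : Type) [Field K] [Algebra ℂ K] (w : ℕ) : Prop :=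
  ∃ (M : Type) (_ : Field M) (_ : Algebra ℂ M), Algebra.EssFiniteType ℂ M ∧
    Algebra.trdeg ℂ M + 1 = w ∧ Nonempty (K →ₐ[ℂ] RatFunc M)

/-- **Uniruled, or abundance.** Let `K` be the function field of a projective variety `X` with
terminal singularities of dimension `d + e`, `V` a linear system of dimension `d + k` on `X` whose
rational map has an image `Y` of dimension `d ≥ 1`; `φ i` nonzero members which span `V`, such that
`V` does not split into a direct sum, `R = d + k + 2`, or `R = d + k + 1` if there are `d + k + 3`
different members, and `s` a number with `2 s > R (k + 1) (k + 2)` for which the condition on the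
multiplicities holds. Let `X` be birational to the fibre product over `Y'` of `e ≥ 1` double covers
`y_j ^ 2 = F_j (x_j)` of `Y' × ℙ¹` with `F_j` of degree at most four, where `Y'` has a generically
finite map to `Y`. Then `X` is uniruled, or `κ (X) = ν (X) = d`. -/
theorem result (d e k q : ℕ) (hd : 1 ≤ d) (he : 1 ≤ e) (K : Type) [Field K]
    [Algebra ℂ K] [Algebra.EssFiniteType ℂ K] (hK : Algebra.trdeg ℂ K = (d + e : ℕ))
    (V : Submodule ℂ K) (hn : Module.finrank ℂ V = d + k + 1)
    (hV : Algebra.trdeg ℂ (ImageField V) = d)
    (φ : Fin q → K) (hφ0 : ∀ i, φ i ≠ 0) (hφ : Submodule.span ℂ (Set.range φ) = V)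
    (hγ : ¬ Splits V φ)
    (R : ℕ) (hR : R = d + k + 2 ∨ (Different (d + k + 3) φ ∧ R = d + k + 1))
    (X : Set (Place ℂ K)) (s : ℕ) (hs : R * ((k + 1) * (k + 2)) < 2 * s)
    (h : Multiplicities (d + e) V φ X s) (F : Fin e → K[X]) (x y : Fin e → K)
    (hF : FibreProduct (ImageField V) F x y) :
    IsUniruled K (d + e) ∨
      (KodairaGe (d + e) X d ∧ NumLe ℂ K (d + e) (fun _ => False) d) := by
  rcases Pool.Agent.Q298.EF.dich hK hF.2.1 (fun j => (hF.1 j).1)
    (fun j => (hF.1 j).2.2.1) (fun j => (hF.1 j).2.2.2) hF.2.2 (fun j => (hF.1 j).2.1) with
    h1 | h1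
  · right
    obtain ⟨f, c', z, h2, h2d, h2g⟩ := h1
    refine ⟨?_, Pool.Agent.Q298.EF.total he hK hV hF.2.1 h2 h2d h2g⟩
    obtain ⟨m, hm, θ, hθ, hne⟩ := Pool.Agent.TH585.SV.hyp_forms h2 hF.2.1 X (d + e)
    have hfin : Module.Finite ℂ V := Module.finite_of_finrank_pos (by omega)
    have hs' : (R : ℝ) * (((k : ℝ) + 1) * ((k : ℝ) + 2)) < 2 * (s : ℝ) := by exact_mod_cast hs
    obtain ⟨-, h4⟩ := Pool.Agent.TH585.SV.lin_fib (n := d + k) (k := k) (lam := 0) (c := 1)
      (γ := fun _ => 0) hd rfl hK (V := V) hV hφ0 hφ (by
        obtain ⟨b⟩ : Nonempty (Module.Basis (Fin (d + k + 1)) ℂ V) :=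
          ⟨Module.finBasisOfFinrankEq ℂ V hn⟩
        refine ⟨fun i => b i, fun _ => 0, ?_, ?_, fun j => ⟨0, Subsingleton.elim _ _⟩, fun i => ?_⟩
        · exact b.linearIndependent.map' V.subtype V.ker_subtype
        · have h3 : Set.range (fun i => ((b i : V) : K)) = V.subtype '' Set.range b := by
            rw [← Set.range_comp]
            rfl
          rw [h3, ← Submodule.map_span, b.span_eq, Submodule.map_top, Submodule.range_subtype]
        · have h3 : (fun i => ((b i : V) : K)) '' {a | (0 : Fin 1) = 0} =
              V.subtype '' Set.range b := by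
            rw [← Set.range_comp]
            ext a
            simp
          rw [h3, ← Submodule.map_span, b.span_eq, Submodule.map_top, Submodule.range_subtype,
            ← hφ]
          exact Submodule.subset_span ⟨i, rfl⟩) (by
        rintro γ' ⟨b, g, hb, hbV, hg, hφb⟩
        exact hγ (Pool.Agent.Q298.EF.dcp_split hb hbV hg hφb)) (R := R) (by
        rcases hR with hR | ⟨hR1, hR2⟩
        · left
          omega
        · exact Or.inr ⟨rfl, hR1, hR2⟩) X (fun _ => 0) (fun _ => 0) (fun _ => 0)
      (fun _ _ => le_rfl) (fun _ _ => by simp) (s := (s : ℝ)) hs'.le (fun P hPX hPd a ha hb hc => by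
        obtain ⟨i, h5⟩ := h P hPX hPd a ha hb hc
        obtain ⟨i', h6⟩ := Pool.Agent.Q298.EF.exists_min hφ0 hφ P ha hb
        refine ⟨i, i', rfl, ?_⟩
        have h7 : (s : ℤ) ≤ P.ord (φ i) - P.ord (φ i') := by omega
        have h8 : ((s : ℤ) : ℝ) ≤ ((P.ord (φ i) - P.ord (φ i') : ℤ) : ℝ) := by exact_mod_cast h7
        simpa using h8) hm (θ := fun _ => θ) (fun _ => hθ) (by
        obtain ⟨G, hG⟩ := hne
        refine ⟨G, hG, ?_⟩
        rw [algebraicIndependent_empty_type_iff]
        exact FaithfulSMul.algebraMap_injective _ _)
    obtain ⟨N, hN, ω, h5, h6⟩ := h4 d rfl hs'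
    refine ⟨N, hN, ω, fun j => ⟨(h5 j).1, fun P hPX hPd D hD => ?_⟩, h6⟩
    rcases (h5 j).2 P hPX hPd D hD with h7 | h7
    · exact Or.inl h7
    · right
      have h8 : (0 : ℝ) ≤ (P.ord (ω j D) : ℝ) := by simpa using h7
      exact_mod_cast h8
  · exact Or.inl h1

end Pool.Agent.Results.MP_5ff3c6_ag.GenusOneFibrations
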